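import Pool.Agent.Q184.SG.Main

set_option autoImplicit false

open MeasureTheory

namespace Pool.Agent.Results.MP_080bf7_an.SubgaussianIffFiniteUnion

/-- The character `γ_n(t) = exp (2πi ∑_k t_k n_k / m)` of `(ℤ/mℤ)^ℕ` attached to the finitely
supported sequence `n` (`ZMod.stdAddChar j = exp (2πi j / m)`). -/
noncomputable def gam {m : ℕ} [NeZero m] (n : ℕ →₀ ZMod m) (t : ℕ → ZMod m) : ℂ :=
  ZMod.stdAddChar (n.sum fun k a => t k * a)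

/-- `‖f‖_{ψ₂} = inf {c > 0 : ∫ exp (|f|² / c²) dμ ≤ e}`. -/
noncomputable def psi2Norm {m : ℕ} (μ : Measure (ℕ → ZMod m)) (f : (ℕ → ZMod m) → ℂ) : ℝ :=
  sInf {c : ℝ | 0 < c ∧ ∫ t, Real.exp (‖f t‖ ^ 2 / c ^ 2) ∂μ ≤ Real.exp 1}

/-- `Λ` is subgaussian: for some `C`, `‖∑_{n ∈ A} a_n γ_n‖_{ψ₂} ≤ C (∑_{n ∈ A} |a_n|²)^{1/2}` for
all finite `A ⊆ Λ` and all complex coefficients. -/
def Subgaussian {m : ℕ} [NeZero m] (μ : Measure (ℕ → ZMod m)) (Λ : Set (ℕ →₀ ZMod m)) : Prop :=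
  ∃ C : ℝ, ∀ (A : Finset (ℕ →₀ ZMod m)) (a : (ℕ →₀ ZMod m) → ℂ), (A : Set (ℕ →₀ ZMod m)) ⊆ Λ →
    psi2Norm μ (fun t => ∑ n ∈ A, a n * gam n t) ≤ C * √(∑ n ∈ A, ‖a n‖ ^ 2)

/-- `Λ` is quasi-independent: a relation `∑_{n ∈ A} ξ_n n = 0` with `A ⊆ Λ` finite and
`ξ_n ∈ {-1, 0, 1}` is trivial. -/
def QuasiIndependent {m : ℕ} (Λ : Set (ℕ →₀ ZMod m)) : Prop :=
  ∀ A : Finset (ℕ →₀ ZMod m), (A : Set (ℕ →₀ ZMod m)) ⊆ Λ → ∀ ξ : (ℕ →₀ ZMod m) → ℤ,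
    (∀ n ∈ A, ξ n = -1 ∨ ξ n = 0 ∨ ξ n = 1) → ∑ n ∈ A, ξ n • n = 0 → ∀ n ∈ A, ξ n = 0

/-- **Subgaussian sets of characters of `(ℤ/mℤ)^ℕ`.**
Let `m ≥ 1` (for instance `m = 4`), let `μ` be the normalised Haar measure of `G = (ℤ/mℤ)^ℕ` and let
`Λ` be a set of nonzero elements of the dual group `(ℤ/mℤ)^(ℕ)`.  Then `Λ` is subgaussian if and only
if it is a union of finitely many quasi-independent sets. -/
theorem result (m : ℕ) [NeZero m] (μ : Measure (ℕ → ZMod m)) [μ.IsAddHaarMeasure]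
    [IsProbabilityMeasure μ] (Λ : Set (ℕ →₀ ZMod m)) (h0 : (0 : ℕ →₀ ZMod m) ∉ Λ) :
    Subgaussian μ Λ ↔ ∃ (k : ℕ) (Q : Fin k → Set (ℕ →₀ ZMod m)),
      (∀ i, QuasiIndependent (Q i)) ∧ Λ = ⋃ i, Q i := by
  classical
  constructor
  · intro h
    obtain ⟨K, hK⟩ := Pool.Agent.Q184.SG.small_of_subg (μ := μ) Λ h0 h
    obtain ⟨Q, hQ, hΛ⟩ := Pool.Agent.H337R3.Sid.finite_union m.primeFactorsList
      (fun q hq => Nat.prime_of_mem_primeFactorsList hq) K Λ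
      (fun x _ => by
        rw [Nat.prod_primeFactorsList (NeZero.ne m)]
        ext k
        simp) hK
    exact ⟨_, Q, hQ, hΛ⟩
  · rintro ⟨k, Q, hQ, hΛ⟩
    exact Pool.Agent.Q184.SG.subg_of_union Λ k Q hQ hΛ

end Pool.Agent.Results.MP_080bf7_an.SubgaussianIffFiniteUnion
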